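import Pool.Agent.Y62.GA.Stm

/-!
# The three characters over the trivial character, when `z` is inverted

Job GA-DAT of helper62, done by helper467.
-/

set_option linter.style.haveILetI false
set_option linter.unusedSectionVars false

open scoped BigOperators Classical
open Pool.Agent.Helper884 Representation Pool.Agent.H254R3.IN

noncomputable section

namespace Pool.Agent.Y467.GA

open Pool.Agent.Y62

/-- the trivial character -/
lemma irr_triv {G : Type} [Group G] : IsIrr (fun _ : G => (1 : ℂ)) := by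
  refine ⟨ℂ, inferInstance, inferInstance, inferInstance, Representation.trivial ℂ G ℂ, ?_, ?_⟩
  · refine { exists_pair_ne := ⟨⊥, ⊤, ?_⟩, eq_bot_or_eq_top := fun W => ?_ }
    · intro h
      have h1 := congrArg Subrepresentation.toSubmodule h
      exact bot_ne_top h1
    · rcases eq_bot_or_eq_top W.toSubmodule with h | h
      · left
        exact Subrepresentation.toSubmodule_injective h
      · right
        exact Subrepresentation.toSubmodule_injective h
  · funext g
    show (1 : ℂ) = LinearMap.trace ℂ ℂ (Representation.trivial ℂ G ℂ g)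
    have : (Representation.trivial ℂ G ℂ g) = LinearMap.id := rfl
    rw [this, LinearMap.trace_id, Module.finrank_self, Nat.cast_one]

variable {M : Type} [Group M] [Fintype M] {z : M} {L : Subgroup M}

/-- `l ^ |L|² = 1` and `z ^ |L|² = z` -/
lemma pow_zl (d : Dat M z L) (l : L) : (z * (l : M)) ^ (Nat.card L ^ 2) = z := by
  have h1 : (l : M) ^ (Nat.card L ^ 2) = 1 := by
    rw [sq, pow_mul]
    have : (l : M) ^ Nat.card L = 1 := by
      rw [← Subgroup.coe_pow, pow_card_eq_one', Subgroup.coe_one]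
    rw [this, one_pow]
  have h2 : z ^ (Nat.card L ^ 2) = z := by
    have h3 : Nat.card L ^ 2 % 3 = 1 := by
      have h4 := d.Lcard
      have h5 : Nat.card L % 3 = 1 ∨ Nat.card L % 3 = 2 := by omega
      rw [Nat.pow_mod]
      rcases h5 with h | h <;> rw [h]
    have h6 : Nat.card L ^ 2 = 3 * (Nat.card L ^ 2 / 3) + 1 := by omega
    rw [h6, pow_succ, pow_mul, d.z3, one_pow, one_mul]
  rw [(d.zcomm l.2).mul_pow, h1, h2, mul_one]

/-- the number of 3-singular elements -/
lemma card_sing (d : Dat M z L) :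
    Nat.card M ≤ 3 * (Finset.univ.filter (fun m : M => 3 ∣ orderOf m)).card := by
  have hLpos : 0 < Nat.card L := Nat.card_pos
  let f : M × L → M := fun x => x.1 * (z * (x.2 : M)) * x.1⁻¹
  have himg : ∀ x, 3 ∣ orderOf (f x) := by
    intro x
    have h1 : f x = MulAut.conj x.1 (z * (x.2 : M)) := rfl
    rw [h1, (MulAut.conj x.1).orderOf_eq, ← d.hz]
    conv_lhs => rw [← pow_zl d x.2]
    exact orderOf_pow_dvd _
  have hfib : ∀ m ∈ (Finset.univ : Finset (M × L)).image f,
      ((Finset.univ : Finset (M × L)).filter (fun x => f x = m)).card ≤ 3 * Nat.card L := by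
    intro m hm
    obtain ⟨x0, -, hx0⟩ := Finset.mem_image.mp hm
    have hc : 3 * Nat.card L = (Finset.univ.filter (fun c : M => Commute z c)).card := by
      rw [← d.card_cent, Nat.card_eq_fintype_card, Fintype.card_subtype]
      congr 1
      ext c
      simp only [Finset.mem_filter, Finset.mem_univ, true_and]
      rw [Subgroup.mem_centralizer_iff]
      simp only [Set.mem_singleton_iff, forall_eq]
      exact Iff.rfl
    rw [hc]
    have key : ∀ x : M × L, f x = m → x0.1⁻¹ * x.1 * z = z * (x0.1⁻¹ * x.1) := by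
      intro x hx
      have h1 : f x = f x0 := by rw [hx, hx0]
      have h2 : ∀ y : M × L, (f y) ^ (Nat.card L ^ 2) = y.1 * z * y.1⁻¹ := by
        intro y
        simp only [f]
        rw [conj_pow, pow_zl d y.2]
      have h3 := congrArg (fun w => w ^ (Nat.card L ^ 2)) h1
      simp only [h2] at h3
      calc x0.1⁻¹ * x.1 * z = x0.1⁻¹ * (x.1 * z * x.1⁻¹) * x.1 := by group
        _ = x0.1⁻¹ * (x0.1 * z * x0.1⁻¹) * x.1 := by rw [h3]
        _ = z * (x0.1⁻¹ * x.1) := by group
    refine Finset.card_le_card_of_injOn (fun x => x0.1⁻¹ * x.1) ?_ ?_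
    · intro x hx
      have hx' := (Finset.mem_filter.mp (Finset.mem_coe.mp hx)).2
      simp only [Finset.coe_filter, Finset.mem_univ, true_and, Set.mem_ofPred_eq]
      exact (key x hx').symm
    · intro x hx y hy hxy
      have hx' := (Finset.mem_filter.mp (Finset.mem_coe.mp hx)).2
      have hy' := (Finset.mem_filter.mp (Finset.mem_coe.mp hy)).2
      have h1 : x.1 = y.1 := mul_left_cancel hxy
      have h2 : f x = f y := by rw [hx', hy']
      simp only [f] at h2
      rw [h1] at h2
      have h3 := mul_left_cancel (mul_left_cancel (mul_right_cancel h2))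
      exact Prod.ext h1 (Subtype.ext h3)
  have h1 := Finset.card_le_mul_card_image (s := (Finset.univ : Finset (M × L))) (f := f)
    (3 * Nat.card L) hfib
  rw [Finset.card_univ, Fintype.card_prod, ← Nat.card_eq_fintype_card, ← Nat.card_eq_fintype_card] at h1
  have h2 : ((Finset.univ : Finset (M × L)).image f).card ≤
      (Finset.univ.filter (fun m : M => 3 ∣ orderOf m)).card := by
    apply Finset.card_le_card
    intro m hm
    obtain ⟨x, -, hx⟩ := Finset.mem_image.mp hm
    rw [Finset.mem_filter]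
    exact ⟨Finset.mem_univ _, by rw [← hx]; exact himg x⟩
  have h3 : Nat.card M * Nat.card L ≤
      (3 * (Finset.univ.filter (fun m : M => 3 ∣ orderOf m)).card) * Nat.card L := by
    calc Nat.card M * Nat.card L ≤ 3 * Nat.card L * ((Finset.univ : Finset (M × L)).image f).card := h1
      _ ≤ 3 * Nat.card L * (Finset.univ.filter (fun m : M => 3 ∣ orderOf m)).card :=
          Nat.mul_le_mul_left _ h2
      _ = _ := by ring
  exact Nat.le_of_mul_le_mul_right h3 hLpos

/-- **GA-DAT** -/
theorem S_DAT : Pool.Agent.Y62.GA.S_DAT := by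
  intro M _ _ O hO z L d t ht
  set θ : L → ℂ := fun _ => 1 with hθdef
  have hθ : IsIrr θ := irr_triv
  have hstab := d.norm_stab ht
  have hst : cj L t θ = θ := by
    funext l
    unfold cj
    rw [ext0_mem θ (hstab l l.2)]
  obtain ⟨lam, hlam⟩ := exists_l z
  have hω := d.prim3 lam hlam
  set ω := ((lam (yy z) : ℂˣ) : ℂ) with hωdef
  have hωr : red O ω = 1 := red_root hO (k := 1) (by rw [pow_one]; exact hω.pow_eq_one)
  have hωO : ω ∈ O := root_mem (by norm_num) hω.pow_eq_one
  have hex : ∀ ψ ∈ d.XX θ, ∃ e : ℤ, (e = 1 ∨ e = -1) ∧ ∃ j : ℕ, ips L z ψ θ = e * ω ^ j := by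
    intro ψ hψ
    obtain ⟨h1, h2⟩ := d.mem_XX.mp hψ
    exact d.unit_cases h1 hθ lam hlam h2
  let e : (M → ℂ) → ℤ := fun ψ => if h : ψ ∈ d.XX θ then Classical.choose (hex ψ h) else 1
  have he : ∀ ψ ∈ d.XX θ, (e ψ = 1 ∨ e ψ = -1) ∧ ∃ j : ℕ, ips L z ψ θ = e ψ * ω ^ j := by
    intro ψ h
    have h1 : e ψ = Classical.choose (hex ψ h) := dif_pos h
    rw [h1]
    exact Classical.choose_spec (hex ψ h)
  have hred1 : ∀ ψ, IsIrr ψ → red O (ips L 1 ψ θ) = red O (ips L z ψ θ) := by
    intro ψ hψ
    have h3 := (ips_red hO hψ d.zL_comm d.ord1 hθ 1).2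
    rw [pow_one] at h3
    exact h3.symm
  have hee : ∀ ψ ∈ d.XX θ, (e ψ : ℂ) * e ψ = 1 := by
    intro ψ hψ
    rcases (he ψ hψ).1 with h | h <;> rw [h] <;> norm_num
  -- values
  have hval : ∀ ψ ∈ d.XX θ, ∀ (i : ℕ), (i = 1 ∨ i = 2) → ∀ θ', IsIrr θ' →
      ips L (z ^ i) ψ θ' = if θ' = θ then (e ψ : ℂ) else 0 := by
    intro ψ hψ i hi θ' hθ'
    obtain ⟨hψi, hψn⟩ := d.mem_XX.mp hψ
    have hreal : ips L z ψ θ = e ψ := by
      obtain ⟨-, j, hj⟩ := he ψ hψ
      have h3 := ips_cj hstab hψi ht (θ := θ)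
      rw [hst, d.ips2 hψi hθ, hj, map_mul, map_pow, cube_conj hω, map_intCast] at h3
      have h4 : ω ^ j = (ω ^ 2) ^ j := by
        have h5 := congrArg (fun w => (e ψ : ℂ) * w) h3
        simp only [← mul_assoc, hee ψ hψ, one_mul] at h5
        exact h5
      have h5 : ω ^ j = 1 := by
        have h6 : ω ^ j * 1 = ω ^ j * ω ^ j := by
          rw [mul_one, ← pow_add]
          rw [← pow_mul] at h4
          have : 2 * j = j + j := by ring
          rw [this] at h4
          exact h4
        exact (mul_left_cancel₀ (pow_ne_zero _ (hω.ne_zero (by norm_num))) h6).symm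
      rw [hj, h5, mul_one]
    have hz' : ips L z ψ θ' = if θ' = θ then (e ψ : ℂ) else 0 := by
      split_ifs with h
      · rw [h, hreal]
      · by_contra hn
        have hcj := ips_cj hstab hψi ht (θ := θ')
        have hn2 : ips L z ψ (cj L t θ') ≠ 0 := by
          rw [hcj, d.ips2 hψi hθ']
          exact (map_ne_zero _).mpr hn
        have hirr := cj_irr hstab hθ'
        have hst' : cj L t θ' = θ' := by
          by_contra hne
          refine d.three_false hψi hθ hθ' hirr (fun h' => h h'.symm) ?_ (fun h' => hne h'.symm)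
            hψn hn hn2
          intro h'
          apply h
          have h7 : cj L t θ = cj L t θ' := by rw [hst]; exact h'
          funext l
          have hsurj : ∃ l' : L, t⁻¹ * (l' : M) * t = l := by
            let g : L → L := fun l => ⟨t⁻¹ * l * t, hstab l l.2⟩
            have hinj : Function.Injective g := by
              intro a b hab
              have h1 := congrArg Subtype.val hab
              change t⁻¹ * (a : M) * t = t⁻¹ * (b : M) * t at h1
              exact Subtype.ext (mul_left_cancel (mul_right_cancel h1))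
            obtain ⟨l', hl'⟩ := (Finite.injective_iff_surjective.mp hinj) l
            exact ⟨l', congrArg Subtype.val hl'⟩
          obtain ⟨l', hl'⟩ := hsurj
          have h8 := congrFun h7 l'
          unfold cj at h8
          rw [hl', ext0_coe, ext0_coe] at h8
          exact h8.symm
        exact h (d.uniq_a hO hθ hθ' ht hst' hψi hψn hn)
    rcases hi with rfl | rfl
    · rw [pow_one, hz']
    · rw [d.ips2 hψi hθ', hz']
      split_ifs
      · exact map_intCast _ _
      · exact map_zero _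
  have hsing : ∀ ψ ∈ d.XX θ, ∀ m, 3 ∣ orderOf m → (e ψ : ℂ) * ψ m = 1 := by
    intro ψ hψ m hm3
    obtain ⟨x, i, l, hi, hm⟩ := d.singular hm3
    rw [d.val_sing (d.mem_XX.mp hψ).1 hm,
      Finset.sum_congr rfl (fun θ' hθ' => by rw [hval ψ hψ i hi θ' (IC.mem_Irr.mp hθ')])]
    simp only [ite_mul, zero_mul, Finset.sum_ite_eq', mem_Irr, hθ, if_true]
    rw [← mul_assoc, hee ψ hψ, one_mul]
  refine ⟨d.XX θ, d.card_XX hθ, fun ψ hψ => (d.mem_XX.mp hψ).1, e, fun ψ hψ => (he ψ hψ).1,
    ?_, ?_, ?_, ?_⟩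
  · intro ψ hψ hn
    have : ips L z ψ θ = 0 := by
      by_contra h
      exact hn (d.mem_XX.mpr ⟨hψ, h⟩)
    have h1 := hred1 ψ hψ
    rw [this, red_zero] at h1
    exact h1
  · intro ψ hψ
    obtain ⟨-, j, hj⟩ := he ψ hψ
    have h1 := hred1 ψ (d.mem_XX.mp hψ).1
    rw [hj, red_mul (intCast_mem' _) (pow_mem hωO _), red_pow hωO,
      hωr, one_pow, mul_one] at h1
    exact h1
  · intro ψ hψ ψ' hψ' m hm
    rw [hsing ψ hψ m hm, hsing ψ' hψ' m hm]
  · -- the norm
    have hn := norm_comb (d.XX θ) (fun ψ hψ => (d.mem_XX.mp hψ).1) e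
    have he2 : ∑ ψ ∈ d.XX θ, (e ψ : ℝ) ^ 2 = 3 := by
      rw [Finset.sum_congr rfl (g := fun _ => (1 : ℝ)) (fun ψ hψ => by
        rcases (he ψ hψ).1 with h | h <;> rw [h] <;> norm_num), Finset.sum_const, d.card_XX hθ]
      norm_num
    rw [he2] at hn
    set S : Finset M := Finset.univ.filter (fun m : M => 3 ∣ orderOf m) with hS
    have h1S : (1 : M) ∉ S := by
      rw [hS, Finset.mem_filter, orderOf_one]
      norm_num
    have hsub : ∑ m ∈ insert 1 S, ‖∑ ψ ∈ d.XX θ, (e ψ : ℂ) * ψ m‖ ^ 2 ≤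
        ∑ m : M, ‖∑ ψ ∈ d.XX θ, (e ψ : ℂ) * ψ m‖ ^ 2 :=
      Finset.sum_le_sum_of_subset_of_nonneg (Finset.subset_univ _) fun _ _ _ => by positivity
    have h9 : ∑ m ∈ S, ‖∑ ψ ∈ d.XX θ, (e ψ : ℂ) * ψ m‖ ^ 2 = 9 * (S.card : ℝ) := by
      rw [Finset.sum_congr rfl (g := fun _ => (9 : ℝ)) (fun m hm => by
        rw [Finset.sum_congr rfl (g := fun _ => (1 : ℂ))
          (fun ψ hψ => hsing ψ hψ m (Finset.mem_filter.mp hm).2), Finset.sum_const, d.card_XX hθ]
        norm_num), Finset.sum_const, nsmul_eq_mul]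
      ring
    rw [Finset.sum_insert h1S, h9, hn] at hsub
    have hc := card_sing d
    have hc' : (Nat.card M : ℝ) ≤ 3 * (S.card : ℝ) := by exact_mod_cast hc
    have h0 : ‖∑ ψ ∈ d.XX θ, (e ψ : ℂ) * ψ 1‖ ^ 2 ≤ 0 := by linarith
    have h00 : ‖∑ ψ ∈ d.XX θ, (e ψ : ℂ) * ψ 1‖ = 0 :=
      pow_eq_zero_iff (n := 2) (by norm_num) |>.mp (le_antisymm h0 (sq_nonneg _))
    exact norm_eq_zero.mp h00

end Pool.Agent.Y467.GA
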