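import Pool.Agent.Y62.Avg

/-!
# Equality in the average bound

Job GA-EQ of helper62, done by helper467.
-/

open scoped BigOperators
open Finset

noncomputable section

namespace Pool.Agent.Y467.GA

open Pool.Agent.Y62

lemma omega_sum {q : ℕ} (hq : q ≠ 0) {ζ : ℂ} (hζ : IsPrimitiveRoot ζ (3 * q)) {t : ℕ} (ht : ¬ 3 ∣ t) :
    1 + ζ ^ (t * q) + ζ ^ (t * (2 * q)) = 0 := by
  have hω : IsPrimitiveRoot (ζ ^ q) 3 := hζ.pow (by omega) (by ring)
  have hω' : IsPrimitiveRoot ((ζ ^ q) ^ t) 3 :=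
    hω.pow_of_coprime t (((Nat.Prime.coprime_iff_not_dvd Nat.prime_three).mpr ht).symm)
  have := hω'.geom_sum_eq_zero (by norm_num)
  rw [Finset.sum_range_succ, Finset.sum_range_succ, Finset.sum_range_one, pow_zero, pow_one,
    ← pow_mul, ← pow_mul] at this
  have e1 : q * t = t * q := by ring
  have e2 : q * t * 2 = t * (2 * q) := by ring
  rw [e2, e1] at this
  exact this

lemma block_sum {q : ℕ} (hq : q ≠ 0) {ζ : ℂ} (hζ : IsPrimitiveRoot ζ (3 * q)) {t : ℕ} (ht : ¬ 3 ∣ t)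
    (c : ℕ) (N a b d : ℤ) :
    ((N + a : ℤ) : ℂ) * ζ ^ (t * c) + ((N + b : ℤ) : ℂ) * ζ ^ (t * (c + q)) +
      ((N + d : ℤ) : ℂ) * ζ ^ (t * (c + 2 * q)) =
      (a : ℂ) * ζ ^ (t * c) + (b : ℂ) * ζ ^ (t * (c + q)) + (d : ℂ) * ζ ^ (t * (c + 2 * q)) := by
  have h1 := omega_sum hq hζ ht
  have e1 : ζ ^ (t * (c + q)) = ζ ^ (t * c) * ζ ^ (t * q) := by rw [← pow_add]; congr 1; ring
  have e2 : ζ ^ (t * (c + 2 * q)) = ζ ^ (t * c) * ζ ^ (t * (2 * q)) := by rw [← pow_add]; congr 1; ring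
  rw [e1, e2]
  push_cast
  linear_combination (N : ℂ) * ζ ^ (t * c) * h1

theorem eq_root {q : ℕ} (hq : q ≠ 0) {ζ : ℂ} (hζ : IsPrimitiveRoot ζ (3 * q)) (n : ℕ → ℤ)
    (hx : ∑ j ∈ range (3 * q), (n j : ℂ) * ζ ^ j ≠ 0)
    (hle : ∑ t ∈ (range (3 * q)).filter (fun t => ¬ 3 ∣ t),
      (‖∑ j ∈ range (3 * q), (n j : ℂ) * ζ ^ (t * j)‖ : ℝ) ^ 2 ≤ 2 * q) :
    ∃ (j0 : ℕ) (ε : ℂ), (ε = 1 ∨ ε = -1) ∧ ∀ t : ℕ, ¬ 3 ∣ t →
      ∑ j ∈ range (3 * q), (n j : ℂ) * ζ ^ (t * j) = ε * ζ ^ (t * j0) := by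
  rw [avg_eq hq hζ] at hle
  set D : ℕ → ℤ := fun c => (n c - n (c + q)) ^ 2 + (n (c + q) - n (c + 2 * q)) ^ 2 +
      (n (c + 2 * q) - n c) ^ 2 with hD
  have hDnn : ∀ c, 0 ≤ D c := fun c => by simp only [hD]; positivity
  have hqpos : (0 : ℝ) < q := by exact_mod_cast Nat.pos_of_ne_zero hq
  have hsum : ∑ c ∈ range q, D c ≤ 2 := by
    have h1 : (q : ℝ) * ((∑ c ∈ range q, D c : ℤ) : ℝ) ≤ q * 2 := by
      push_cast
      push_cast [hD] at hle
      rw [mul_comm (q : ℝ) 2]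
      simpa [hD] using hle
    have h2 := le_of_mul_le_mul_left h1 hqpos
    exact_mod_cast h2
  -- the sum by blocks
  have hblk : ∀ t, ∑ j ∈ range (3 * q), (n j : ℂ) * ζ ^ (t * j) =
      ∑ c ∈ range q, ((n c : ℂ) * ζ ^ (t * c) + (n (c + q) : ℂ) * ζ ^ (t * (c + q)) +
        (n (c + 2 * q) : ℂ) * ζ ^ (t * (c + 2 * q))) := fun t => sum_range_three_mul q _
  have hconst : ∀ c, D c = 0 → ∀ t, ¬ 3 ∣ t → (n c : ℂ) * ζ ^ (t * c) +
      (n (c + q) : ℂ) * ζ ^ (t * (c + q)) + (n (c + 2 * q) : ℂ) * ζ ^ (t * (c + 2 * q)) = 0 := by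
    intro c hc t ht
    have h1 : n c = n (c + q) := by
      simp only [hD] at hc
      nlinarith [sq_nonneg (n c - n (c + q)), sq_nonneg (n (c + q) - n (c + 2 * q)),
        sq_nonneg (n (c + 2 * q) - n c)]
    have h2 : n (c + q) = n (c + 2 * q) := by
      simp only [hD] at hc
      nlinarith [sq_nonneg (n c - n (c + q)), sq_nonneg (n (c + q) - n (c + 2 * q)),
        sq_nonneg (n (c + 2 * q) - n c)]
    have h3 := block_sum hq hζ ht c (n c) 0 0 0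
    rw [← h2, ← h1]
    simpa using h3
  -- one block is not constant
  obtain ⟨c, hc, hne⟩ : ∃ c ∈ range q, D c ≠ 0 := by
    by_contra hcon
    push Not at hcon
    apply hx
    have h1 := hblk 1
    simp only [one_mul] at h1
    rw [h1]
    refine Finset.sum_eq_zero (fun c hc => ?_)
    have h2 := hconst c (hcon c hc) 1 (by norm_num)
    simpa using h2
  have hc2 : D c ≤ 2 := (Finset.single_le_sum (fun i _ => hDnn i) hc).trans hsum
  -- the others are constant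
  have hoth : ∀ c' ∈ range q, c' ≠ c → D c' = 0 := by
    intro c' hc' hcc
    by_contra h0
    have hpos : ∀ i, D i ≠ 0 → 2 ≤ D i := by
      intro i hi
      have e : D i = 2 * ((n i - n (i + q)) ^ 2 + (n i - n (i + q)) * (n (i + q) - n (i + 2 * q)) +
        (n (i + q) - n (i + 2 * q)) ^ 2) := by simp only [hD]; ring
      have := hDnn i
      omega
    have h1 : D c + D c' ≤ ∑ i ∈ range q, D i := by
      rw [← Finset.sum_pair (f := D) hcc.symm]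
      refine Finset.sum_le_sum_of_subset_of_nonneg ?_ (fun i _ _ => hDnn i)
      intro i hi
      rw [Finset.mem_insert, Finset.mem_singleton] at hi
      rcases hi with rfl | rfl
      · exact hc
      · exact hc'
    have h2 := hpos c hne
    have h3 := hpos c' h0
    omega
  have hsingle : ∀ t, ¬ 3 ∣ t → ∑ j ∈ range (3 * q), (n j : ℂ) * ζ ^ (t * j) =
      (n c : ℂ) * ζ ^ (t * c) + (n (c + q) : ℂ) * ζ ^ (t * (c + q)) +
        (n (c + 2 * q) : ℂ) * ζ ^ (t * (c + 2 * q)) := by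
    intro t ht
    rw [hblk t]
    refine Finset.sum_eq_single c (fun c' hc' hcc => hconst c' (hoth c' hc' hcc) t ht) ?_
    intro h; exact absurd hc h
  -- the shape of the block
  obtain ⟨N, a, b, d, hN, ha, hb, habd⟩ : ∃ N a b d : ℤ, n c = N + a ∧ n (c + q) = N + b ∧
      n (c + 2 * q) = N + d ∧
      ((a = 0 ∧ b = 0 ∧ (d = 1 ∨ d = -1)) ∨ (a = 0 ∧ d = 0 ∧ (b = 1 ∨ b = -1)) ∨
        (b = 0 ∧ d = 0 ∧ (a = 1 ∨ a = -1))) := by
    set x := n c - n (c + q) with hx1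
    set y := n (c + q) - n (c + 2 * q) with hy1
    have hz : n (c + 2 * q) - n c = -(x + y) := by rw [hx1, hy1]; ring
    have hDc : D c = x ^ 2 + y ^ 2 + (x + y) ^ 2 := by
      simp only [hD]; rw [hz, ← hx1, ← hy1]; ring
    rw [hDc] at hc2 hne
    have hx2 : -1 ≤ x ∧ x ≤ 1 := by constructor <;> nlinarith [sq_nonneg y, sq_nonneg (x + y)]
    have hy2 : -1 ≤ y ∧ y ≤ 1 := by constructor <;> nlinarith [sq_nonneg x, sq_nonneg (x + y)]
    obtain ⟨hx3, hx4⟩ := hx2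
    obtain ⟨hy3, hy4⟩ := hy2
    have hxc : x = -1 ∨ x = 0 ∨ x = 1 := by omega
    have hyc : y = -1 ∨ y = 0 ∨ y = 1 := by omega
    rcases hxc with h1 | h1 | h1 <;> rcases hyc with h2 | h2 | h2 <;>
      rw [h1, h2] at hc2 hne <;> try (exfalso; revert hc2 hne; norm_num; done)
    · -- x = -1, y = 0
      exact ⟨n (c + q), -1, 0, 0, by omega, by omega, by omega, Or.inr (Or.inr ⟨rfl, rfl, Or.inr rfl⟩)⟩
    · -- x = -1, y = 1
      exact ⟨n c, 0, 1, 0, by omega, by omega, by omega, Or.inr (Or.inl ⟨rfl, rfl, Or.inl rfl⟩)⟩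
    · -- x = 0, y = -1
      exact ⟨n c, 0, 0, 1, by omega, by omega, by omega, Or.inl ⟨rfl, rfl, Or.inl rfl⟩⟩
    · -- x = 0, y = 1
      exact ⟨n c, 0, 0, -1, by omega, by omega, by omega, Or.inl ⟨rfl, rfl, Or.inr rfl⟩⟩
    · -- x = 1, y = -1
      exact ⟨n c, 0, -1, 0, by omega, by omega, by omega, Or.inr (Or.inl ⟨rfl, rfl, Or.inr rfl⟩)⟩
    · -- x = 1, y = 0
      exact ⟨n (c + q), 1, 0, 0, by omega, by omega, by omega, Or.inr (Or.inr ⟨rfl, rfl, Or.inl rfl⟩)⟩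
  have hshape : ∀ t, ¬ 3 ∣ t → ∑ j ∈ range (3 * q), (n j : ℂ) * ζ ^ (t * j) =
      (a : ℂ) * ζ ^ (t * c) + (b : ℂ) * ζ ^ (t * (c + q)) + (d : ℂ) * ζ ^ (t * (c + 2 * q)) := by
    intro t ht
    rw [hsingle t ht, hN, ha, hb]
    exact block_sum hq hζ ht c N a b d
  have hcast : ∀ z : ℤ, (z = 1 ∨ z = -1) → ((z : ℂ) = 1 ∨ (z : ℂ) = -1) := by
    rintro z (rfl | rfl)
    · left; norm_num
    · right; norm_num
  rcases habd with ⟨h1, h2, h3⟩ | ⟨h1, h2, h3⟩ | ⟨h1, h2, h3⟩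
  · exact ⟨c + 2 * q, d, hcast d h3, fun t ht => by rw [hshape t ht, h1, h2]; simp⟩
  · exact ⟨c + q, b, hcast b h3, fun t ht => by rw [hshape t ht, h1, h2]; simp⟩
  · exact ⟨c, a, hcast a h3, fun t ht => by rw [hshape t ht, h1, h2]; simp⟩

end Pool.Agent.Y467.GA
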