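import Pool.Agent.Y62.GA.Stm
import Pool.Agent.Y467.GA.EqRoot

/-!
# Equality in the averaged bound

Job GA-EQ of helper62, done by helper467.
-/

set_option linter.style.haveILetI false
set_option linter.unusedSectionVars false

open scoped BigOperators Classical
open Pool.Agent.Helper884 Representation Pool.Agent.H254R3.IN

noncomputable section

namespace Pool.Agent.Y467.GA

open Pool.Agent.Y62

/-- **GA-EQ** -/
theorem S_EQ : Pool.Agent.Y62.GA.S_EQ := by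
  intro G _ _ y k hk H hy X hX e hreg T hT hup
  obtain ⟨lam, hlam⟩ := exists_l y
  have hζ := prim_root lam hlam
  set ζ : ℂ := ((lam (yy y) : ℂˣ) : ℂ) with hζdef
  set q : ℕ := 3 ^ k with hq
  have hq0 : q ≠ 0 := pow_ne_zero _ (by norm_num)
  have hord : orderOf y = 3 * q := by rw [hk, pow_succ, hq]; ring
  rw [hord] at hζ
  set a : ℕ → (G → ℂ) → ℂ := fun t χ => ∑ ψ ∈ X, (e ψ : ℂ) * ips H (y ^ t) χ ψ with ha
  set E : ℝ := ∑ ψ ∈ X, (e ψ : ℝ) ^ 2 with hE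
  have hHpos : (0 : ℝ) < Nat.card H := by exact_mod_cast Nat.card_pos
  set Fs : Finset ℕ := (Finset.range (3 * q)).filter (fun t => ¬ 3 ∣ t) with hFs
  -- bound for each t
  have hbd : ∀ t : ℕ, ¬ 3 ∣ t → ∑ χ ∈ IC.Irr G, ‖a t χ‖ ^ 2 ≤ (T.card : ℝ) := by
    intro t ht
    have hkt : ∃ k', orderOf (y ^ t) = 3 ^ k' := by
      have h1 : orderOf (y ^ t) ∣ 3 ^ (k + 1) := by rw [← hk]; exact orderOf_pow_dvd t
      obtain ⟨j, _, hj⟩ := (Nat.dvd_prime_pow Nat.prime_three).mp h1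
      exact ⟨j, hj⟩
    obtain ⟨k', hk'⟩ := hkt
    have hsupp : Supp 3 (y ^ t) (ext0 H (fun h => ∑ ψ ∈ X, (e ψ : ℂ) * ψ h)) := by
      intro s hs
      by_cases hsH : s ∈ H
      · refine ⟨(hy s hsH).pow_left t, fun h3 => hs ?_⟩
        rw [ext0_mem _ hsH]
        exact hreg ⟨s, hsH⟩ h3
      · exact absurd (ext0_not _ hsH) hs
    have h1 := sec_bound (p := 3) hk' hsupp
    rw [centralizer_pow hk ht, sum_ext0_norm, norm_comb X hX e, ← hE] at h1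
    simp only [av_ext0_comb X hX e, norm_mul, Complex.norm_natCast, RCLike.norm_conj, mul_pow] at h1
    rw [← Finset.mul_sum] at h1
    have h4 : ((Nat.card H : ℝ) * Nat.card H) * ∑ χ ∈ IC.Irr G, ‖a t χ‖ ^ 2 ≤
        ((Nat.card H : ℝ) * Nat.card H) * T.card := by
      calc ((Nat.card H : ℝ) * Nat.card H) * ∑ χ ∈ IC.Irr G, ‖a t χ‖ ^ 2
          = (Nat.card H : ℝ) ^ 2 * ∑ χ ∈ IC.Irr G, ‖a t χ‖ ^ 2 := by ring
        _ ≤ _ := h1
        _ = Nat.card H * (Nat.card (Subgroup.centralizer ({y} : Set G)) * E) := by ring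
        _ ≤ Nat.card H * ((T.card : ℝ) * Nat.card H) := mul_le_mul_of_nonneg_left hup hHpos.le
        _ = _ := by ring
    exact le_of_mul_le_mul_left h4 (mul_pos hHpos hHpos)
  -- fourier expansion
  have hexp : ∀ χ, IsIrr χ → ∃ n : ℕ → ℤ, ∀ t, a t χ = ∑ j ∈ Finset.range (3 * q),
        (n j : ℂ) * ζ ^ (t * j) := by
    intro χ hi
    have hex : ∀ ψ ∈ X, ∃ n : ℕ → ℕ, ∀ t : ℕ, ips H (y ^ t) χ ψ =
        ∑ j ∈ Finset.range (3 * q), (n j : ℂ) * ζ ^ (t * j) := by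
      intro ψ hψ
      have := ips_fourier hi hy (hX ψ hψ) lam hlam
      rwa [hord] at this
    let nn : (H → ℂ) → ℕ → ℕ := fun ψ =>
      if h : ψ ∈ X then Classical.choose (hex ψ h) else fun _ => 0
    have hnn : ∀ ψ ∈ X, ∀ t : ℕ, ips H (y ^ t) χ ψ =
        ∑ j ∈ Finset.range (3 * q), (nn ψ j : ℂ) * ζ ^ (t * j) := by
      intro ψ hψ
      have h1 : nn ψ = Classical.choose (hex ψ hψ) := dif_pos hψ
      rw [h1]
      exact Classical.choose_spec (hex ψ hψ)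
    refine ⟨fun j => ∑ ψ ∈ X, e ψ * (nn ψ j : ℤ), fun t => ?_⟩
    rw [ha]
    dsimp only
    rw [Finset.sum_congr rfl (fun ψ hψ => by rw [hnn ψ hψ t])]
    push_cast
    simp only [Finset.mul_sum, Finset.sum_mul]
    rw [Finset.sum_comm]
    refine Finset.sum_congr rfl fun j _ => Finset.sum_congr rfl fun ψ _ => ?_
    ring
  -- lower bound for each character
  have hlow : ∀ χ ∈ T, (2 * q : ℝ) ≤ ∑ t ∈ Fs, ‖a t χ‖ ^ 2 := by
    intro χ hχ
    obtain ⟨hi, hne⟩ := hT χ hχ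
    obtain ⟨n, hn⟩ := hexp χ hi
    have h1 := avg_ge hq0 hζ n (by
      have h2 := hn 1
      simp only [one_mul] at h2
      rw [← h2, ha]
      dsimp only
      rw [pow_one]
      exact hne)
    simp only [← hn] at h1
    exact h1
  have hTsub : T ⊆ IC.Irr G := fun χ hχ => IC.mem_Irr.mpr (hT χ hχ).1
  -- the total
  have htot : ∑ χ ∈ IC.Irr G, ∑ t ∈ Fs, ‖a t χ‖ ^ 2 ≤ (2 * q : ℝ) * T.card := by
    rw [Finset.sum_comm]
    have h3 := Finset.sum_le_card_nsmul Fs (fun t => ∑ χ ∈ IC.Irr G, ‖a t χ‖ ^ 2) (T.card : ℝ)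
      (fun t ht => hbd t (Finset.mem_filter.mp ht).2)
    rw [hFs, card_filter_three, nsmul_eq_mul] at h3
    push_cast at h3
    exact h3
  have hsplit : ∑ χ ∈ IC.Irr G, ∑ t ∈ Fs, ‖a t χ‖ ^ 2 =
      ∑ χ ∈ IC.Irr G \ T, ∑ t ∈ Fs, ‖a t χ‖ ^ 2 + ∑ χ ∈ T, ∑ t ∈ Fs, ‖a t χ‖ ^ 2 :=
    (Finset.sum_sdiff hTsub).symm
  have hnn1 : 0 ≤ ∑ χ ∈ IC.Irr G \ T, ∑ t ∈ Fs, ‖a t χ‖ ^ 2 :=
    Finset.sum_nonneg fun χ _ => Finset.sum_nonneg fun t _ => by positivity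
  have hT1 : (2 * q : ℝ) * T.card ≤ ∑ χ ∈ T, ∑ t ∈ Fs, ‖a t χ‖ ^ 2 := by
    have := Finset.card_nsmul_le_sum T _ _ hlow
    rw [nsmul_eq_mul] at this
    linarith
  refine ⟨?_, ?_⟩
  · intro χ hχ
    obtain ⟨hi, hne⟩ := hT χ hχ
    obtain ⟨n, hn⟩ := hexp χ hi
    have hle : ∑ t ∈ Fs, ‖a t χ‖ ^ 2 ≤ 2 * q := by
      have h1 : ∑ χ' ∈ T.erase χ, (2 * q : ℝ) ≤ ∑ χ' ∈ T.erase χ, ∑ t ∈ Fs, ‖a t χ'‖ ^ 2 :=
        Finset.sum_le_sum fun χ' hχ' => hlow χ' (Finset.mem_of_mem_erase hχ')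
      have h2 := Finset.add_sum_erase T (fun χ' => ∑ t ∈ Fs, ‖a t χ'‖ ^ 2) hχ
      have h3 := Finset.add_sum_erase T (fun _ => (2 * q : ℝ)) hχ
      simp only [Finset.sum_const, nsmul_eq_mul] at h3 h1
      linarith
    obtain ⟨j0, ε, hε, h5⟩ := eq_root hq0 hζ n (by
      have h2 := hn 1
      simp only [one_mul] at h2
      rw [← h2, ha]
      dsimp only
      rw [pow_one]
      exact hne) (by simp only [← hn]; exact hle)
    refine ⟨ζ ^ j0, ε, ?_, hε, ?_⟩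
    · have : (3 : ℕ) ^ (k + 1) = 3 * q := by rw [hq, pow_succ]; ring
      rw [this, ← pow_mul, mul_comm, pow_mul, hζ.pow_eq_one, one_pow]
    · intro t ht
      have h6 := h5 t ht
      rw [← hn t] at h6
      rw [← pow_mul, mul_comm j0 t]
      exact h6
  · intro χ hi hχ
    have h1 : ∑ χ ∈ IC.Irr G \ T, ∑ t ∈ Fs, ‖a t χ‖ ^ 2 ≤ 0 := by linarith
    have h2 : ∑ t ∈ Fs, ‖a t χ‖ ^ 2 ≤ 0 := by
      refine le_trans ?_ h1
      exact Finset.single_le_sum (f := fun χ => ∑ t ∈ Fs, ‖a t χ‖ ^ 2)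
        (fun χ _ => Finset.sum_nonneg fun t _ => by positivity)
        (Finset.mem_sdiff.mpr ⟨IC.mem_Irr.mpr hi, hχ⟩)
    have h1F : 1 ∈ Fs := by
      rw [hFs, Finset.mem_filter, Finset.mem_range]
      exact ⟨by omega, by norm_num⟩
    have h3 : ‖a 1 χ‖ ^ 2 ≤ 0 := le_trans
      (Finset.single_le_sum (f := fun t => ‖a t χ‖ ^ 2) (fun t _ => by positivity) h1F) h2
    have h4 : a 1 χ = 0 := by
      have h5 : ‖a 1 χ‖ = 0 := by
        have := sq_nonneg ‖a 1 χ‖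
        exact pow_eq_zero_iff (n := 2) (by norm_num) |>.mp (le_antisymm h3 this)
      exact norm_eq_zero.mp h5
    rw [ha] at h4
    dsimp only at h4
    rw [pow_one] at h4
    exact h4

end Pool.Agent.Y467.GA
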