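import Pool.Agent.Y62.GA.Stm

/-!
# Averages over regular elements modulo 3

Job GA-NV of helper62, done by helper467.
-/

set_option linter.style.haveILetI false
set_option linter.unusedSectionVars false

open scoped BigOperators Classical
open Pool.Agent.Helper884 Representation Pool.Agent.H254R3.IN

noncomputable section

namespace Pool.Agent.Y467.GA

open Pool.Agent.Y62

variable {G : Type} [Group G] [Fintype G]

/-- one step: the average over the regular elements of `C(R)` and of `C(A)` -/
lemma nv_step {O : ValuationSubring ℂ} (hpO : ((3 : ℕ) : ℂ) ∈ O.nonunits) {R A : Subgroup G}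
    (hRA : R ≤ A) (hA : IsPGroup 3 A) (hAR : A ≤ Subgroup.normalizer (R : Set G))
    (g : G → RF O) (hg : ∀ a x, g (a * x * a⁻¹) = g x) :
    ∑ s ∈ Finset.univ.filter (fun s : G => s ∈ Subgroup.centralizer (R : Set G) ∧ ¬ 3 ∣ orderOf s), g s =
    ∑ s ∈ Finset.univ.filter (fun s : G => s ∈ Subgroup.centralizer (A : Set G) ∧ ¬ 3 ∣ orderOf s), g s := by
  haveI := charP_RF (p := 3) hpO
  letI : MulAction A G := MulAction.compHom G ((MulAut.conj : G →* MulAut G).comp A.subtype)
  have hinv : ∀ a ∈ A, ∀ x, x ∈ Subgroup.centralizer (R : Set G) →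
      a * x * a⁻¹ ∈ Subgroup.centralizer (R : Set G) := by
    intro a ha x hx
    rw [Subgroup.mem_centralizer_iff] at hx ⊢
    intro r hr
    have haN := hAR ha
    rw [Subgroup.mem_normalizer_iff] at haN
    have h3 : a⁻¹ * r * a ∈ R := by
      rw [haN]
      have : a * (a⁻¹ * r * a) * a⁻¹ = r := by group
      rw [this]
      exact hr
    have h4 := hx _ h3
    calc r * (a * x * a⁻¹) = a * ((a⁻¹ * r * a) * x) * a⁻¹ := by group
      _ = a * (x * (a⁻¹ * r * a)) * a⁻¹ := by rw [h4]
      _ = a * x * a⁻¹ * r := by group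
  have hiff : ∀ a ∈ A, ∀ x, (a * x * a⁻¹ ∈ Subgroup.centralizer (R : Set G) ∧
      ¬ 3 ∣ orderOf (a * x * a⁻¹)) ↔ (x ∈ Subgroup.centralizer (R : Set G) ∧ ¬ 3 ∣ orderOf x) := by
    intro a ha x
    have ho : orderOf (a * x * a⁻¹) = orderOf x := by
      rw [← MulAut.conj_apply, (MulAut.conj a).orderOf_eq]
    rw [ho]
    refine and_congr_left fun _ => ⟨fun h => ?_, hinv a ha x⟩
    have h1 := hinv a⁻¹ (A.inv_mem ha) _ h
    have h2 : a⁻¹ * (a * x * a⁻¹) * a⁻¹⁻¹ = x := by group
    rwa [h2] at h1
  let f : G → RF O := fun s =>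
    if s ∈ Subgroup.centralizer (R : Set G) ∧ ¬ 3 ∣ orderOf s then g s else 0
  have h1 := sum_fixed (p := 3) hA (X := G) (F := RF O)
    (fun a => by rw [nsmul_eq_mul, CharP.cast_eq_zero, zero_mul]) f
    (fun d x => by
      change f ((d : G) * x * (d : G)⁻¹) = f x
      simp only [f, hiff d d.2 x, hg])
  have h2 : ∑ x, f x = ∑ s ∈ Finset.univ.filter
      (fun s : G => s ∈ Subgroup.centralizer (R : Set G) ∧ ¬ 3 ∣ orderOf s), g s := by
    rw [Finset.sum_filter]
  rw [← h2, h1]
  simp only [f]
  rw [← Finset.sum_filter, Finset.filter_filter]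
  refine Finset.sum_congr ?_ fun _ _ => rfl
  ext x
  simp only [Finset.mem_filter, Finset.mem_univ, true_and]
  have hfix : (∀ d : A, d • x = x) ↔ x ∈ Subgroup.centralizer (A : Set G) := by
    rw [Subgroup.mem_centralizer_iff]
    constructor
    · intro h d hd
      have h2 : d * x * d⁻¹ = x := h ⟨d, hd⟩
      rwa [mul_inv_eq_iff_eq_mul] at h2
    · intro h d
      change (d : G) * x * (d : G)⁻¹ = x
      rw [h d d.2]
      group
  rw [hfix]
  constructor
  · rintro ⟨h1, -, h2⟩
    exact ⟨h1, h2⟩
  · rintro ⟨h1, h2⟩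
    refine ⟨h1, ?_, h2⟩
    rw [Subgroup.mem_centralizer_iff] at h1 ⊢
    exact fun r hr => h1 r (hRA hr)

/-- the chain -/
lemma nv_chain {O : ValuationSubring ℂ} (hpO : ((3 : ℕ) : ℂ) ∈ O.nonunits) {D : Subgroup G}
    (hD : IsPGroup 3 D) (g : G → RF O) (hg : ∀ a x, g (a * x * a⁻¹) = g x) :
    ∀ n : ℕ, ∀ R : Subgroup G, R ≤ D → Nat.card D - Nat.card R ≤ n →
    ∑ s ∈ Finset.univ.filter (fun s : G => s ∈ Subgroup.centralizer (R : Set G) ∧ ¬ 3 ∣ orderOf s), g s =
    ∑ s ∈ Finset.univ.filter (fun s : G => s ∈ Subgroup.centralizer (D : Set G) ∧ ¬ 3 ∣ orderOf s), g s := by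
  intro n
  induction n with
  | zero =>
    intro R hRD hn
    have hcard : Nat.card D ≤ Nat.card R := by omega
    have hR : R = D := Subgroup.eq_of_le_of_card_ge hRD hcard
    rw [hR]
  | succ n ih =>
    intro R hRD hn
    by_cases hR : R = D
    · rw [hR]
    · -- the normaliser grows
      have hnil : Group.IsNilpotent D := hD.isNilpotent
      have hnc := Group.normalizerCondition_of_isNilpotent (G := D)
      have hlt : R.subgroupOf D < ⊤ := by
        rw [lt_top_iff_ne_top]
        intro h
        apply hR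
        exact le_antisymm hRD (Subgroup.subgroupOf_eq_top.mp h)
      have h1 := hnc _ hlt
      obtain ⟨g', hg', hgR⟩ := SetLike.exists_of_lt h1
      rw [Subgroup.mem_normalizer_iff] at hg'
      let A : Subgroup G := D ⊓ Subgroup.normalizer (R : Set G)
      have hRA : R ≤ A := le_inf hRD Subgroup.le_normalizer
      have hgA : (g' : G) ∈ A := by
        refine ⟨g'.2, ?_⟩
        change (g' : G) ∈ Subgroup.normalizer (R : Set G)
        rw [Subgroup.mem_normalizer_iff]
        intro x
        constructor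
        · intro hx
          have := (hg' ⟨x, hRD hx⟩).mp hx
          exact this
        · intro hx
          have hxD : x ∈ D := by
            have h2 : x = (g' : G)⁻¹ * ((g' : G) * x * (g' : G)⁻¹) * g' := by group
            rw [h2]
            exact D.mul_mem (D.mul_mem (D.inv_mem g'.2) (hRD hx)) g'.2
          exact (hg' ⟨x, hxD⟩).mpr hx
      have hcardlt : Nat.card R < Nat.card A := by
        by_contra hcon
        push Not at hcon
        have : R = A := Subgroup.eq_of_le_of_card_ge hRA hcon
        apply hgR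
        rw [Subgroup.mem_subgroupOf, this]
        exact hgA
      have hcardle : Nat.card A ≤ Nat.card D := Subgroup.card_le_of_le inf_le_left
      rw [nv_step hpO hRA (hD.to_le inf_le_left) inf_le_right g hg]
      exact ih A inf_le_left (by omega)

/-- **GA-NV** -/
theorem S_NV : Pool.Agent.Y62.GA.S_NV := by
  intro G _ _ O hpO P χ hχ _ R hRP K hK
  obtain ⟨hi, hω⟩ := hχ
  have hKp : ¬ 3 ∣ Nat.card K := not_dvd_card_of_regular (p := 3) fun s hs => ((hK s).mp hs).2
  have hPG : IsPGroup 3 (P : Subgroup G) := P.isPGroup'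
  have hmemK : ∀ s, s ∈ K ↔ s ∈ Subgroup.centralizer (R : Set G) ∧ ¬ 3 ∣ orderOf s := by
    intro s
    rw [hK, Subgroup.mem_centralizer_iff]
    exact Iff.rfl
  have hsumK : ∀ g : G → RF O, ∑ h : K, g h = ∑ s ∈ Finset.univ.filter
      (fun s : G => s ∈ Subgroup.centralizer (R : Set G) ∧ ¬ 3 ∣ orderOf s), g s := by
    intro g
    rw [sum_sub K g]
    refine Finset.sum_congr ?_ fun _ _ => rfl
    ext s
    simp only [Finset.mem_filter, Finset.mem_univ, true_and]
    exact hmemK s
  have hsumP : ∀ g : G → RF O, (∀ a x, g (a * x * a⁻¹) = g x) → ∑ h : K, g h =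
      ∑ s ∈ Finset.univ.filter
      (fun s : G => s ∈ Subgroup.centralizer ((P : Subgroup G) : Set G) ∧ ¬ 3 ∣ orderOf s), g s := by
    intro g hg
    rw [hsumK, nv_chain hpO hPG g hg _ R hRP le_rfl]
  -- values at elements centralising `P`
  have hval : ∀ s ∈ Subgroup.centralizer ((P : Subgroup G) : Set G), red O (χ s) = red O (χ 1) := by
    intro s hs
    have hle : (P : Subgroup G) ≤ Subgroup.centralizer ({s} : Set G) := by
      intro x hx
      rw [Subgroup.mem_centralizer_iff]
      intro y hy
      rw [Set.mem_singleton_iff] at hy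
      subst hy
      exact (Subgroup.mem_centralizer_iff.mp hs x hx).symm
    have hcl : ¬ 3 ∣ Nat.card {y : G // IsConj s y} := by
      intro h3
      have h1 := card_class_mul s
      have h2 : (Subgroup.centralizer ({s} : Set G)).index = Nat.card {y : G // IsConj s y} := by
        have h3 := Subgroup.card_mul_index (Subgroup.centralizer ({s} : Set G))
        have h4 : 0 < Nat.card (Subgroup.centralizer ({s} : Set G)) := Nat.card_pos
        refine Nat.eq_of_mul_eq_mul_left h4 ?_
        rw [h3, ← h1, mul_comm]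
      have h3' := Subgroup.index_dvd_of_le hle
      rw [h2] at h3'
      exact P.not_dvd_index (h3.trans h3')
    have hχ1 : χ 1 ≠ 0 := hi.one_ne
    have h1 : omega χ s * χ 1 = (Nat.card {y : G // IsConj s y} : ℂ) * χ s := by
      unfold omega
      field_simp
    have h2 : omega (fun _ : G => (1 : ℂ)) s = (Nat.card {y : G // IsConj s y} : ℂ) := by
      unfold omega
      simp
    have h3 := (red_congr (hi.omega_mem O s) (hω s)).2
    rw [h2] at h3
    have h4 := congrArg (red O) h1
    rw [red_mul (hi.omega_mem O s) (hi.val_mem O 1), red_mul (natCast_mem' _) (hi.val_mem O s),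
      h3] at h4
    have h5 : red O (Nat.card {y : G // IsConj s y} : ℂ) ≠ 0 := by
      rw [Ne, red_nat_eq_zero_iff (p := 3) hpO]
      exact hcl
    exact (mul_left_cancel₀ h5 h4).symm
  have hsum1 : ∑ h : K, red O (χ h) = red O (χ 1) * (Nat.card K : RF O) := by
    have e1 := hsumP (fun s => red O (χ s)) (fun a x => by
      simp only [irr_isCl hi x a])
    have e2 := hsumP (fun _ => (1 : RF O)) (fun _ _ => rfl)
    simp only [Finset.sum_const, Finset.card_univ, nsmul_eq_mul, mul_one] at e2
    rw [e1, Finset.sum_congr rfl (fun s hs => hval s (Finset.mem_filter.mp hs).2.1),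
      Finset.sum_const, nsmul_eq_mul, ← e2, mul_comm, Nat.card_eq_fintype_card]
  unfold ips
  rw [red_mul (nat_inv_mem (p := 3) hpO hKp) (sum_mem fun h _ => O.mul_mem _ _ (hi.val_mem O _)
      O.one_mem), red_sum _ _ (fun h _ => O.mul_mem _ _ (hi.val_mem O _) O.one_mem)]
  have e3 : ∀ h : K, red O (χ (1 * (h : G)) * 1) = red O (χ h) := by
    intro h
    rw [one_mul, mul_one]
  rw [Finset.sum_congr rfl (fun h _ => e3 h), hsum1]
  have h6 : red O ((Nat.card K : ℂ)⁻¹) * (Nat.card K : RF O) = 1 := by
    rw [← red_natCast, ← red_mul (nat_inv_mem (p := 3) hpO hKp) (natCast_mem' _),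
      inv_mul_cancel₀, red_one]
    exact_mod_cast Nat.card_pos.ne'
  rw [mul_left_comm, h6, mul_one]

end Pool.Agent.Y467.GA
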